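import Mathlib
import Pool.Agent.Q233.MatFC

/-!
# MP_7112d2_mp, Q1: zero standard-divergence coefficient, positive Riemannian coefficient

Explicit channels `N, M` on a qubit, `f(x) = (x-1)²` and `κ(x) = 2/(1+x)` with
`η̌_f^std(N,M) = 0` and `η̌_κ^Riem(N,M) > 0`.
-/

namespace Pool.Agent.Results.MP_7112d2_mp.StdZeroRiemPositive

open Matrix Q233.MatFC
open scoped Kronecker ComplexOrder MatrixOrder

/-- Density operators: positive semidefinite matrices of trace one. -/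
structure IsDensity {n : Type} [Fintype n] (ρ : Matrix n n ℂ) : Prop where
  psd : ρ.PosSemidef
  tr : ρ.trace = 1

/-- The map `id ⊗ N` on `ℂ^r ⊗ A`, applied block by block. -/
def ampl {a b : ℕ} (r : ℕ) (N : Matrix (Fin a) (Fin a) ℂ →ₗ[ℂ] Matrix (Fin b) (Fin b) ℂ)
    (Z : Matrix (Fin r × Fin a) (Fin r × Fin a) ℂ) :
    Matrix (Fin r × Fin b) (Fin r × Fin b) ℂ :=
  Matrix.of fun p q => N (Matrix.of fun x y => Z (p.1, x) (q.1, y)) p.2 q.2

/-- Quantum channels: completely positive trace-preserving linear maps. -/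
structure IsChannel {a b : ℕ}
    (N : Matrix (Fin a) (Fin a) ℂ →ₗ[ℂ] Matrix (Fin b) (Fin b) ℂ) : Prop where
  cp : ∀ (r : ℕ) (Z : Matrix (Fin r × Fin a) (Fin r × Fin a) ℂ), Z.PosSemidef →
    (ampl r N Z).PosSemidef
  tp : ∀ Z, (N Z).trace = Z.trace

/-- Operator convexity on `(0,∞)`. -/
def OpConvex (f : ℝ → ℝ) : Prop :=
  ∀ (n : ℕ) (A B : Matrix (Fin n) (Fin n) ℂ), A.PosDef → B.PosDef → ∀ t : ℝ, 0 ≤ t → t ≤ 1 →
    ((t : ℂ) • cfc f A + ((1 - t : ℝ) : ℂ) • cfc f B -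
      cfc f ((t : ℂ) • A + ((1 - t : ℝ) : ℂ) • B)).PosSemidef

/-- The class `𝓕`. -/
structure InF (f : ℝ → ℝ) : Prop where
  conv : OpConvex f
  one : f 1 = 0
  pos : 0 < deriv (deriv f) 1

/-- The class `𝓚`. -/
structure InK (κ : ℝ → ℝ) : Prop where
  conv : OpConvex κ
  symm : ∀ x, 0 < x → x * κ x = κ (1 / x)
  one : κ 1 = 1

/-- The generalised inverse of a Hermitian matrix on its support (here `0⁻¹ = 0`). -/
noncomputable def ginv {n : Type} [Fintype n] [DecidableEq n] (σ : Matrix n n ℂ) : Matrix n n ℂ :=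
  cfc (fun x : ℝ => x⁻¹) σ

/-- A matrix as a vector of the Hilbert-Schmidt space. -/
def vec {n : Type} (X : Matrix n n ℂ) : n × n → ℂ := fun p => X p.1 p.2

/-- The matrix, in the basis of matrix units, of the superoperator `X ↦ A X B`. -/
def supOp {n : Type} (A B : Matrix n n ℂ) : Matrix (n × n) (n × n) ℂ := A ⊗ₖ Bᵀ

/-- `D_f^std(ρ‖γ) = ⟨γ^{1/2}, f(L_ρ R_γ⁻¹)(γ^{1/2})⟩_HS`. -/
noncomputable def Dstd {n : Type} [Fintype n] [DecidableEq n] (f : ℝ → ℝ)
    (ρ γ : Matrix n n ℂ) : ℝ :=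
  (star (vec (CFC.sqrt γ)) ⬝ᵥ (cfc f (supOp ρ (ginv γ)) *ᵥ vec (CFC.sqrt γ))).re

/-- `‖Y‖²_{κ,σ} = ⟨Y, κ(L_σ R_σ⁻¹) R_σ⁻¹ (Y)⟩_HS`. -/
noncomputable def rnorm {n : Type} [Fintype n] [DecidableEq n] (κ : ℝ → ℝ)
    (σ Y : Matrix n n ℂ) : ℝ :=
  (star (vec Y) ⬝ᵥ (cfc κ (supOp σ (ginv σ)) *ᵥ vec (Y * ginv σ))).re

/-- The relative expansion coefficient `η̌_f^std(N,M)`, an infimum in the extended reals. -/
noncomputable def etaStd {a b b' : ℕ} (f : ℝ → ℝ)
    (N : Matrix (Fin a) (Fin a) ℂ →ₗ[ℂ] Matrix (Fin b) (Fin b) ℂ)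
    (M : Matrix (Fin a) (Fin a) ℂ →ₗ[ℂ] Matrix (Fin b') (Fin b') ℂ) : EReal :=
  sInf {x : EReal | ∃ ρ γ : Matrix (Fin a) (Fin a) ℂ, IsDensity ρ ∧ IsDensity γ ∧ ρ ≠ γ ∧
    LinearMap.range ρ.mulVecLin = LinearMap.range γ.mulVecLin ∧ Dstd f (M ρ) (M γ) ≠ 0 ∧
    x = ((Dstd f (N ρ) (N γ) / Dstd f (M ρ) (M γ) : ℝ) : EReal)}

/-- The relative expansion coefficient `η̌_κ^Riem(N,M)`, an infimum in the extended reals. -/
noncomputable def etaRiem {a b b' : ℕ} (κ : ℝ → ℝ)
    (N : Matrix (Fin a) (Fin a) ℂ →ₗ[ℂ] Matrix (Fin b) (Fin b) ℂ)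
    (M : Matrix (Fin a) (Fin a) ℂ →ₗ[ℂ] Matrix (Fin b') (Fin b') ℂ) : EReal :=
  sInf {x : EReal | ∃ ρ X : Matrix (Fin a) (Fin a) ℂ, IsDensity ρ ∧ X.IsHermitian ∧
    X.trace = 0 ∧ rnorm κ (M ρ) (M X) ≠ 0 ∧
    x = ((rnorm κ (N ρ) (N X) / rnorm κ (M ρ) (M X) : ℝ) : EReal)}

/-! ### The functions -/

/-- `f(x) = (x-1)²`. -/
noncomputable def f0 (x : ℝ) : ℝ := (x - 1) * (x - 1)

/-- `κ(x) = 2/(1+x)`. -/
noncomputable def k0 (x : ℝ) : ℝ := 2 / (1 + x)

section fc
variable {n : Type} [Fintype n] [DecidableEq n]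

lemma cfc_f0 {A : Matrix n n ℂ} (hA : A.IsHermitian) : cfc f0 A = (A - 1) * (A - 1) := by
  rw [← F_eq_cfc hA]
  have h1 : F hA (fun x => x - 1) = A - 1 := by
    rw [← F_sub hA (fun x => x) (fun _ => 1), F_id, F_one]
  have h2 : F hA f0 = F hA (fun x => x - 1) * F hA (fun x => x - 1) := (F_mul hA _ _).symm
  rw [h2, h1]

lemma cfc_k0_mul {A : Matrix n n ℂ} (hA : A.PosSemidef) :
    (1 + A) * cfc k0 A = (2 : ℂ) • (1 : Matrix n n ℂ) := by
  rw [← F_eq_cfc hA.1]
  have h1 : F hA.1 (fun x => 1 + x) = 1 + A := by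
    rw [← F_add hA.1 (fun _ => 1) (fun x => x), F_id, F_one]
  rw [← h1, F_mul, ← F_one hA.1]
  have h2 := F_smul hA.1 2 (fun _ => 1)
  have h3 : ((2 : ℝ) : ℂ) = 2 := by norm_num
  rw [h3] at h2
  rw [h2]
  apply F_congr
  intro i
  have := hA.eigenvalues_nonneg i
  unfold k0
  field_simp

lemma cfc_k0_mul' {A : Matrix n n ℂ} (hA : A.PosSemidef) :
    cfc k0 A * (1 + A) = (2 : ℂ) • (1 : Matrix n n ℂ) := by
  rw [← F_eq_cfc hA.1]
  have h1 : F hA.1 (fun x => 1 + x) = 1 + A := by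
    rw [← F_add hA.1 (fun _ => 1) (fun x => x), F_id, F_one]
  rw [← h1, F_mul, ← F_one hA.1]
  have h2 := F_smul hA.1 2 (fun _ => 1)
  have h3 : ((2 : ℝ) : ℂ) = 2 := by norm_num
  rw [h3] at h2
  rw [h2]
  apply F_congr
  intro i
  have := hA.eigenvalues_nonneg i
  unfold k0
  field_simp

end fc

lemma smul_psd {n : Type} [Fintype n] {A : Matrix n n ℂ} (hA : A.PosSemidef) (c : ℝ) (hc : 0 ≤ c) :
    ((c : ℂ) • A).PosSemidef := by
  have h0 : (0 : ℂ) ≤ (c : ℂ) := by exact_mod_cast hc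
  exact hA.smul h0

lemma f0_opConvex : OpConvex f0 := by
  intro n A B hA hB t ht ht1
  have hAh := hA.1
  have hBh := hB.1
  have hS : ((t : ℂ) • A + ((1 - t : ℝ) : ℂ) • B).IsHermitian :=
    ((smul_psd hA.posSemidef t ht).add (smul_psd hB.posSemidef (1 - t) (by linarith))).1
  rw [cfc_f0 hAh, cfc_f0 hBh, cfc_f0 hS]
  have h : (t : ℂ) • ((A - 1) * (A - 1)) + ((1 - t : ℝ) : ℂ) • ((B - 1) * (B - 1)) -
      ((t : ℂ) • A + ((1 - t : ℝ) : ℂ) • B - 1) * ((t : ℂ) • A + ((1 - t : ℝ) : ℂ) • B - 1) =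
      ((t * (1 - t) : ℝ) : ℂ) • ((A - B)ᴴ * (A - B)) := by
    have e : (A - B)ᴴ = A - B := (hAh.sub hBh).eq
    rw [e]
    simp only [sub_mul, mul_sub, add_mul, mul_add, smul_mul_assoc, mul_smul_comm, smul_sub,
      smul_add, one_mul, mul_one, smul_smul]
    push_cast
    module
  rw [h]
  exact smul_psd (posSemidef_conjTranspose_mul_self _) _ (mul_nonneg ht (by linarith))

lemma k0_opConvex : OpConvex k0 := by
  intro n A B hA hB t ht ht1
  have hSp : ((t : ℂ) • A + ((1 - t : ℝ) : ℂ) • B).PosSemidef :=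
    (smul_psd hA.posSemidef t ht).add (smul_psd hB.posSemidef (1 - t) (by linarith))
  set S := (t : ℂ) • A + ((1 - t : ℝ) : ℂ) • B with hSdef
  have a1 := cfc_k0_mul hA.posSemidef
  have a2 := cfc_k0_mul' hA.posSemidef
  have b1 := cfc_k0_mul hB.posSemidef
  have b2 := cfc_k0_mul' hB.posSemidef
  have s1 := cfc_k0_mul hSp
  have s2 := cfc_k0_mul' hSp
  have ha : (cfc k0 A).IsHermitian := by rw [← F_eq_cfc hA.1]; exact F_isHermitian _ _
  have hb : (cfc k0 B).IsHermitian := by rw [← F_eq_cfc hB.1]; exact F_isHermitian _ _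
  have hs : (cfc k0 S).IsHermitian := by rw [← F_eq_cfc hSp.1]; exact F_isHermitian _ _
  set a := cfc k0 A
  set b := cfc k0 B
  set s := cfc k0 S
  have e1 : (a - s) * (1 + A) * (a - s) = (2 : ℂ) • a - (4 : ℂ) • s + s * (1 + A) * s := by
    have : (a - s) * (1 + A) * (a - s) =
        a * (1 + A) * a - a * (1 + A) * s - s * ((1 + A) * a) + s * (1 + A) * s := by
      noncomm_ring
    rw [this, a1, a2]
    simp only [smul_mul_assoc, one_mul, mul_smul_comm, mul_one]
    module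
  have e2 : (b - s) * (1 + B) * (b - s) = (2 : ℂ) • b - (4 : ℂ) • s + s * (1 + B) * s := by
    have : (b - s) * (1 + B) * (b - s) =
        b * (1 + B) * b - b * (1 + B) * s - s * ((1 + B) * b) + s * (1 + B) * s := by
      noncomm_ring
    rw [this, b1, b2]
    simp only [smul_mul_assoc, one_mul, mul_smul_comm, mul_one]
    module
  have e3 : (t : ℂ) • (s * (1 + A) * s) + ((1 - t : ℝ) : ℂ) • (s * (1 + B) * s) = (2 : ℂ) • s := by
    have h1 : (t : ℂ) • (s * (1 + A) * s) + ((1 - t : ℝ) : ℂ) • (s * (1 + B) * s) =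
        s * (1 + S) * s := by
      rw [hSdef]
      simp only [mul_add, add_mul, mul_one, smul_add, mul_smul_comm, smul_mul_assoc]
      push_cast
      module
    rw [h1, s2]
    simp
  have key : (t : ℂ) • a + ((1 - t : ℝ) : ℂ) • b - s =
      ((t / 2 : ℝ) : ℂ) • ((a - s)ᴴ * (1 + A) * (a - s)) +
      (((1 - t) / 2 : ℝ) : ℂ) • ((b - s)ᴴ * (1 + B) * (b - s)) := by
    rw [(ha.sub hs).eq, (hb.sub hs).eq, e1, e2]
    rw [← sub_eq_zero]
    have e4 : (t : ℂ) • a + ((1 - t : ℝ) : ℂ) • b - s -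
        (((t / 2 : ℝ) : ℂ) • ((2 : ℂ) • a - (4 : ℂ) • s + s * (1 + A) * s) +
        (((1 - t) / 2 : ℝ) : ℂ) • ((2 : ℂ) • b - (4 : ℂ) • s + s * (1 + B) * s)) =
        s - (1 / 2 : ℂ) • ((t : ℂ) • (s * (1 + A) * s) +
          ((1 - t : ℝ) : ℂ) • (s * (1 + B) * s)) := by
      push_cast
      module
    rw [e4, e3]
    module
  rw [key]
  have hA1 : (1 + A).PosSemidef := PosSemidef.one.add hA.posSemidef
  have hB1 : (1 + B).PosSemidef := PosSemidef.one.add hB.posSemidef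
  exact (smul_psd (hA1.conjTranspose_mul_mul_same _) _ (by positivity)).add
    (smul_psd (hB1.conjTranspose_mul_mul_same _) _ (by linarith))

lemma f0_inF : InF f0 := by
  refine ⟨f0_opConvex, by norm_num [f0], ?_⟩
  have h1 : deriv f0 = fun x => 2 * (x - 1) := by
    funext x
    have : HasDerivAt f0 (1 * (x - 1) + (x - 1) * 1) x :=
      ((hasDerivAt_id x).sub_const 1).mul ((hasDerivAt_id x).sub_const 1)
    rw [this.deriv]; ring
  rw [h1]
  have : HasDerivAt (fun x : ℝ => 2 * (x - 1)) (2 * 1) 1 :=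
    ((hasDerivAt_id (1 : ℝ)).sub_const 1).const_mul 2
  rw [this.deriv]; norm_num

lemma k0_inK : InK k0 := by
  refine ⟨k0_opConvex, ?_, by norm_num [k0]⟩
  intro x hx
  unfold k0
  field_simp
  ring

/-! ### Evaluation of the forms -/

section forms
variable {n : Type} [Fintype n] [DecidableEq n]

omit [DecidableEq n] in
lemma supOp_mulVec (A B X : Matrix n n ℂ) : supOp A B *ᵥ vec X = vec (A * X * B) := by
  funext p
  obtain ⟨i, j⟩ := p
  simp only [supOp, Matrix.mulVec, dotProduct, vec, Fintype.sum_prod_type, kroneckerMap_apply,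
    Matrix.mul_apply, Finset.sum_mul, transpose_apply]
  rw [Finset.sum_comm]
  apply Finset.sum_congr rfl; intro l _
  apply Finset.sum_congr rfl; intro k _
  ring

lemma ginv_isHermitian {σ : Matrix n n ℂ} (hσ : σ.IsHermitian) : (ginv σ).IsHermitian := by
  unfold ginv; rw [← F_eq_cfc hσ]; exact F_isHermitian _ _

lemma ginv_posSemidef {σ : Matrix n n ℂ} (hσ : σ.PosSemidef) : (ginv σ).PosSemidef := by
  unfold ginv; rw [← F_eq_cfc hσ.1]
  exact F_posSemidef _ _ (fun i => inv_nonneg.2 (hσ.eigenvalues_nonneg i))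

omit [Fintype n] [DecidableEq n] in
lemma supOp_isHermitian {A B : Matrix n n ℂ} (hA : A.IsHermitian) (hB : B.IsHermitian) :
    (supOp A B).IsHermitian := by
  unfold supOp
  rw [Matrix.IsHermitian, conjTranspose_kronecker, hA.eq]
  congr 1
  exact hB.transpose.eq

omit [DecidableEq n] in
lemma supOp_posSemidef {A B : Matrix n n ℂ} (hA : A.PosSemidef) (hB : B.PosSemidef) :
    (supOp A B).PosSemidef := hA.kronecker hB.transpose

/-- `D_f^std` for `f(x) = (x-1)²`. -/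
lemma Dstd_f0 {ρ γ : Matrix n n ℂ} (hρ : ρ.IsHermitian) (hγ : γ.IsHermitian) :
    Dstd f0 ρ γ = ∑ i, ∑ j, ‖(ρ * CFC.sqrt γ * ginv γ - CFC.sqrt γ) i j‖ ^ 2 := by
  have hT : (supOp ρ (ginv γ)).IsHermitian := supOp_isHermitian hρ (ginv_isHermitian hγ)
  unfold Dstd
  rw [cfc_f0 hT, ← mulVec_mulVec]
  have h1 : (supOp ρ (ginv γ) - 1) *ᵥ vec (CFC.sqrt γ) =
      vec (ρ * CFC.sqrt γ * ginv γ - CFC.sqrt γ) := by
    rw [sub_mulVec, supOp_mulVec, one_mulVec]
    rfl
  have h2 : star (vec (CFC.sqrt γ)) ⬝ᵥ (supOp ρ (ginv γ) - 1) *ᵥ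
      ((supOp ρ (ginv γ) - 1) *ᵥ vec (CFC.sqrt γ)) =
      star ((supOp ρ (ginv γ) - 1) *ᵥ vec (CFC.sqrt γ)) ⬝ᵥ
        ((supOp ρ (ginv γ) - 1) *ᵥ vec (CFC.sqrt γ)) := by
    rw [dotProduct_mulVec, star_mulVec, (hT.sub isHermitian_one).eq]
  rw [h2, h1, dotProduct, Complex.re_sum, Fintype.sum_prod_type]
  apply Finset.sum_congr rfl; intro i _
  apply Finset.sum_congr rfl; intro j _
  simp only [Pi.star_apply, vec]
  rw [Complex.star_def, ← Complex.normSq_eq_conj_mul_self, Complex.normSq_eq_norm_sq]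
  exact Complex.ofReal_re _

/-- The Riemannian form for `κ(x) = 2/(1+x)`. -/
lemma rnorm_k0 {σ : Matrix n n ℂ} (hσ : σ.PosSemidef) (Y : Matrix n n ℂ) :
    ∃ Z : Matrix n n ℂ, Z + σ * Z * ginv σ = (2 : ℂ) • (Y * ginv σ) ∧
      rnorm k0 σ Y = (∑ i, ∑ j, star (Y i j) * Z i j).re := by
  have hT : (supOp σ (ginv σ)).PosSemidef := supOp_posSemidef hσ (ginv_posSemidef hσ)
  set z := cfc k0 (supOp σ (ginv σ)) *ᵥ vec (Y * ginv σ) with hz
  refine ⟨Matrix.of fun i j => z (i, j), ?_, ?_⟩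
  · have hvec : vec (Matrix.of fun i j => z (i, j)) = z := rfl
    have h1 : (1 + supOp σ (ginv σ)) *ᵥ z = (2 : ℂ) • vec (Y * ginv σ) := by
      rw [hz, mulVec_mulVec, cfc_k0_mul hT, smul_mulVec, one_mulVec]
    rw [add_mulVec, one_mulVec, ← hvec, supOp_mulVec] at h1
    ext i j
    exact congrFun h1 (i, j)
  · unfold rnorm
    rw [← hz, dotProduct, Fintype.sum_prod_type]
    rfl

/-- Uniqueness of the generalised inverse. -/
lemma ginv_unique {A B : Matrix n n ℂ} (hA : A.IsHermitian) (hB : B.IsHermitian)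
    (hc : A * B = B * A) (h1 : A * B * A = A) (h2 : B * A * B = B) : ginv A = B := by
  set G := ginv A with hG
  have hGF : G = F hA (fun x => x⁻¹) := by rw [hG, ginv, F_eq_cfc hA]
  have hGh : G.IsHermitian := ginv_isHermitian hA
  have hcG : A * G = G * A := by
    have e1 : A * G = F hA (fun x => x * x⁻¹) := by
      rw [← F_mul hA (fun x => x) (fun x => x⁻¹), F_id, hGF]
    have e2 : G * A = F hA (fun x => x⁻¹ * x) := by
      rw [← F_mul hA (fun x => x⁻¹) (fun x => x), F_id, hGF]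
    rw [e1, e2]
    apply F_congr
    intro i
    ring
  have g1 : A * G * A = A := by
    have e1 : A * G * A = F hA (fun x => x * x⁻¹ * x) := by
      rw [← F_mul hA (fun x => x * x⁻¹) (fun x => x), ← F_mul hA (fun x => x) (fun x => x⁻¹),
        F_id, hGF]
    rw [e1]
    conv_rhs => rw [← F_id hA]
    apply F_congr
    intro i
    by_cases h : hA.eigenvalues i = 0
    · simp [h]
    · field_simp
  have g2 : G * A * G = G := by
    have e1 : G * A * G = F hA (fun x => x⁻¹ * x * x⁻¹) := by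
      rw [← F_mul hA (fun x => x⁻¹ * x) (fun x => x⁻¹), ← F_mul hA (fun x => x⁻¹) (fun x => x),
        F_id, hGF]
    rw [e1, hGF]
    apply F_congr
    intro i
    by_cases h : hA.eigenvalues i = 0
    · simp [h]
    · field_simp
  have k1 : (A * G) * (A * B) = A * B := by rw [← mul_assoc, g1]
  have k2 : (A * B) * (A * G) = A * G := by rw [← mul_assoc, h1]
  have k3 : A * B = A * G := by
    have h3 := congrArg conjTranspose k1
    rw [conjTranspose_mul, conjTranspose_mul, conjTranspose_mul, hA.eq, hB.eq, hGh.eq, ← hc,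
      ← hcG, k2] at h3
    exact h3.symm
  calc G = G * (A * G) := by rw [← mul_assoc, g2]
    _ = G * (A * B) := by rw [k3]
    _ = (A * G) * B := by rw [← mul_assoc, hcG]
    _ = (A * B) * B := by rw [k3]
    _ = B * A * B := by rw [hc]
    _ = B := h2

lemma ginv_diagonal (s : n → ℝ) :
    ginv (diagonal (fun o => (s o : ℂ))) = diagonal (fun o => ((s o)⁻¹ : ℂ)) := by
  have hh : ∀ u : n → ℝ, (diagonal (fun o => (u o : ℂ))).IsHermitian := by
    intro u
    rw [Matrix.IsHermitian, diagonal_conjTranspose]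
    congr 1
    funext o
    simp
  have h2 : (diagonal (fun o => ((s o)⁻¹ : ℂ))).IsHermitian := by
    have := hh (fun o => (s o)⁻¹)
    simpa using this
  apply ginv_unique (hh s) h2
  · simp only [diagonal_mul_diagonal]
    congr 1; funext o; ring
  · simp only [diagonal_mul_diagonal]
    congr 1; funext o
    by_cases h : (s o : ℂ) = 0
    · simp [h]
    · field_simp
  · simp only [diagonal_mul_diagonal]
    congr 1; funext o
    by_cases h : (s o : ℂ) = 0
    · simp [h]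
    · field_simp

lemma ginv_proj {P : Matrix n n ℂ} (h : IsProj P) : ginv P = P :=
  ginv_unique h.herm h.herm rfl (by rw [h.idem, h.idem]) (by rw [h.idem, h.idem])

lemma ginv_mul_of_posDef {A : Matrix n n ℂ} (hA : A.PosDef) : ginv A * A = 1 := by
  have e2 : ginv A * A = F hA.1 (fun x => x⁻¹ * x) := by
    rw [← F_mul hA.1 (fun x => x⁻¹) (fun x => x), F_id, ginv, F_eq_cfc hA.1]
  rw [e2, ← F_one hA.1]
  apply F_congr
  intro i
  have := hA.eigenvalues_pos i
  field_simp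

lemma sqrt_diagonal (s : n → ℝ) (hs : ∀ o, 0 ≤ s o) :
    CFC.sqrt (diagonal (fun o => (s o : ℂ))) = diagonal (fun o => ((Real.sqrt (s o) : ℝ) : ℂ)) := by
  apply CFC.sqrt_unique
  · rw [diagonal_mul_diagonal]
    congr 1; funext o
    rw [← Complex.ofReal_mul, Real.mul_self_sqrt (hs o)]
  · apply PosSemidef.nonneg
    rw [posSemidef_diagonal_iff]
    intro o
    exact_mod_cast Real.sqrt_nonneg _

/-- `D_f^std` for `f(x) = (x-1)²` and a diagonal positive second argument. -/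
lemma Dstd_diag {ρ : Matrix n n ℂ} (hρ : ρ.IsHermitian) (s : n → ℝ) (hs : ∀ o, 0 < s o) :
    Dstd f0 ρ (diagonal (fun o => (s o : ℂ))) =
      ∑ i, ∑ j, ‖(ρ - diagonal (fun o => (s o : ℂ))) i j‖ ^ 2 / s j := by
  have hh : (diagonal (fun o => (s o : ℂ))).IsHermitian := by
    rw [Matrix.IsHermitian, diagonal_conjTranspose]
    congr 1
    funext o
    simp
  rw [Dstd_f0 hρ hh, sqrt_diagonal s (fun o => (hs o).le), ginv_diagonal]
  apply Finset.sum_congr rfl; intro i _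
  apply Finset.sum_congr rfl; intro j _
  have h1 : (ρ * diagonal (fun o => ((Real.sqrt (s o) : ℝ) : ℂ)) *
      diagonal (fun o => ((s o)⁻¹ : ℂ)) - diagonal (fun o => ((Real.sqrt (s o) : ℝ) : ℂ))) i j =
      (ρ - diagonal (fun o => (s o : ℂ))) i j * (((Real.sqrt (s j))⁻¹ : ℝ) : ℂ) := by
    have hs' : (0 : ℝ) < Real.sqrt (s j) := Real.sqrt_pos.2 (hs j)
    have hsq : ((Real.sqrt (s j) : ℝ) : ℂ) * ((Real.sqrt (s j) : ℝ) : ℂ) = (s j : ℂ) := by
      rw [← Complex.ofReal_mul, Real.mul_self_sqrt (hs j).le]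
    have hne : ((Real.sqrt (s j) : ℝ) : ℂ) ≠ 0 := by exact_mod_cast hs'.ne'
    rw [Matrix.sub_apply, Matrix.sub_apply, mul_diagonal, mul_diagonal, ← hsq]
    by_cases hij : i = j
    · subst hij
      rw [diagonal_apply_eq, diagonal_apply_eq, ← hsq]
      push_cast
      field_simp
    · rw [diagonal_apply_ne _ hij, diagonal_apply_ne _ hij]
      push_cast
      field_simp
      simp
  rw [h1, norm_mul, mul_pow, Complex.norm_real, Real.norm_eq_abs, abs_inv,
    abs_of_nonneg (Real.sqrt_nonneg _), inv_pow, Real.sq_sqrt (hs j).le]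
  rw [div_eq_mul_inv]

/-- The Riemannian form for `κ(x) = 2/(1+x)` on diagonal matrices. -/
lemma rnorm_diag (s y : n → ℝ) (hs : ∀ o, 0 ≤ s o) :
    rnorm k0 (diagonal (fun o => (s o : ℂ))) (diagonal (fun o => (y o : ℂ))) =
      ∑ o, y o ^ 2 * (s o)⁻¹ := by
  have hp : (diagonal (fun o => (s o : ℂ))).PosSemidef := by
    rw [posSemidef_diagonal_iff]
    intro o
    exact_mod_cast hs o
  obtain ⟨Z, hZ, h⟩ := rnorm_k0 hp (diagonal (fun o => (y o : ℂ)))
  rw [h, Complex.re_sum]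
  apply Finset.sum_congr rfl
  intro o _
  rw [Finset.sum_eq_single o]
  · have h1 := congrFun (congrFun hZ o) o
    rw [ginv_diagonal, Matrix.add_apply, mul_diagonal, diagonal_mul, Matrix.smul_apply, mul_diagonal,
      diagonal_apply_eq] at h1
    have h2 : Z o o = ((y o * (s o)⁻¹ : ℝ) : ℂ) := by
      by_cases h0 : s o = 0
      · rw [h0] at h1 ⊢
        simpa using h1
      · have h0' : (s o : ℂ) ≠ 0 := by exact_mod_cast h0
        have h3 : Z o o + (s o : ℂ) * Z o o * (s o : ℂ)⁻¹ = 2 * Z o o := by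
          field_simp
          ring
        rw [h3, smul_eq_mul] at h1
        push_cast
        exact mul_left_cancel₀ two_ne_zero h1
    rw [h2, diagonal_apply_eq, Complex.star_def, Complex.conj_ofReal, ← Complex.ofReal_mul,
      Complex.ofReal_re]
    ring
  · intro p _ hp
    rw [diagonal_apply_ne _ (Ne.symm hp)]
    simp
  · intro h; exact absurd (Finset.mem_univ _) h

end forms

/-! ### The two channels -/

/-- The measurement vectors (unnormalised) of the flagged Pauli measurement. -/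
noncomputable def mv : Fin 6 → Fin 2 → ℂ :=
  ![![1, 0], ![0, 1], ![1, 1], ![1, -1], ![1, Complex.I], ![1, -Complex.I]]

/-- The weights of the flagged Pauli measurement. -/
noncomputable def mw : Fin 6 → ℝ := ![1/3, 1/3, 1/6, 1/6, 1/6, 1/6]

/-- The channel `N`: a uniformly random Pauli measurement with classical output. -/
noncomputable def NN : Matrix (Fin 2) (Fin 2) ℂ →ₗ[ℂ] Matrix (Fin 6) (Fin 6) ℂ where
  toFun Z := diagonal (fun o => (mw o : ℂ) * (star (mv o) ⬝ᵥ (Z *ᵥ mv o)))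
  map_add' X Y := by
    rw [diagonal_add]; congr 1; funext o
    rw [add_mulVec, dotProduct_add]; ring
  map_smul' c X := by
    rw [RingHom.id_apply, ← diagonal_smul]; congr 1; funext o
    rw [smul_mulVec, dotProduct_smul, Pi.smul_apply, smul_eq_mul, smul_eq_mul]; ring

/-- The multiplier of the dephasing channel. -/
noncomputable def CC : Matrix (Fin 2) (Fin 2) ℂ := !![1, 1/2; 1/2, 1]

/-- The channel `M`: the qubit dephasing channel which halves the off-diagonal entries. -/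
noncomputable def MM : Matrix (Fin 2) (Fin 2) ℂ →ₗ[ℂ] Matrix (Fin 2) (Fin 2) ℂ where
  toFun Z := Z ⊙ CC
  map_add' _ _ := add_hadamard _ _ _
  map_smul' _ _ := smul_hadamard _ _ _

lemma CC_psd : CC.PosSemidef := by
  have h := (smul_psd (posSemidef_vecMulVec_self_star (R := ℂ) ![(1 : ℂ), 1]) (1/2)
    (by norm_num)).add (smul_psd (PosSemidef.one (n := Fin 2) (R := ℂ)) (1/2) (by norm_num))
  refine cast (congrArg PosSemidef ?_) h
  ext i j
  fin_cases i <;> fin_cases j <;> simp [CC] <;> norm_num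

lemma MM_isChannel : IsChannel MM := by
  constructor
  · intro r Z hZ
    have h : ampl r MM Z = Z ⊙ (CC.submatrix Prod.snd Prod.snd) := by
      ext ⟨i, x⟩ ⟨j, y⟩
      simp [ampl, MM, hadamard_apply]
    rw [h]
    exact hZ.hadamard (CC_psd.submatrix _)
  · intro Z
    simp [MM, Matrix.trace, Fin.sum_univ_two, hadamard_apply, CC]

lemma NN_isChannel : IsChannel NN := by
  constructor
  · intro r Z hZ
    set V : Fin 6 → Matrix (Fin r × Fin 2) (Fin r) ℂ :=
      fun o => Matrix.of fun p j => if p.1 = j then mv o p.2 else 0 with hV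
    have h : ampl r NN Z = ∑ o : Fin 6, ((V o)ᴴ * Z * V o) ⊗ₖ
        (diagonal (Pi.single o (mw o : ℂ)) : Matrix (Fin 6) (Fin 6) ℂ) := by
      ext ⟨i, x⟩ ⟨j, y⟩
      rw [Matrix.sum_apply]
      simp only [kroneckerMap_apply, ampl, Matrix.of_apply]
      have hv : ∀ o, ((V o)ᴴ * Z * V o) i j =
          star (mv o) ⬝ᵥ ((Matrix.of fun x y => Z (i, x) (j, y)) *ᵥ mv o) := by
        intro o
        simp only [Matrix.mul_apply, Fintype.sum_prod_type, Fin.sum_univ_two, conjTranspose_apply,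
          hV, Matrix.of_apply, dotProduct, mulVec, Pi.star_apply]
        simp only [apply_ite star, star_zero, ite_mul, zero_mul, mul_ite, mul_zero]
        simp only [Finset.sum_add_distrib, Finset.sum_ite_eq', Finset.mem_univ, if_true]
        ring
      simp only [hv]
      by_cases hxy : x = y
      · subst hxy
        rw [Finset.sum_eq_single x]
        · simp [NN, mul_comm]
        · intro o _ ho
          rw [diagonal_apply_eq, Pi.single_eq_of_ne (Ne.symm ho), mul_zero]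
        · intro h; exact absurd (Finset.mem_univ _) h
      · rw [Finset.sum_eq_zero]
        · simp [NN, diagonal_apply_ne _ hxy]
        · intro o _
          rw [diagonal_apply_ne _ hxy, mul_zero]
    rw [h]
    have hpos : ∀ o : Fin 6, (((V o)ᴴ * Z * V o) ⊗ₖ
        (diagonal (Pi.single o (mw o : ℂ)) : Matrix (Fin 6) (Fin 6) ℂ)).PosSemidef := by
      intro o
      apply (hZ.conjTranspose_mul_mul_same _).kronecker
      rw [posSemidef_diagonal_iff]
      intro o'
      by_cases hoo : o' = o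
      · subst hoo
        rw [Pi.single_eq_same]
        have : (0 : ℝ) ≤ mw o' := by fin_cases o' <;> norm_num [mw]
        exact_mod_cast this
      · rw [Pi.single_eq_of_ne hoo]
    exact Matrix.posSemidef_sum _ (fun o _ => hpos o)
  · intro Z
    simp only [NN, LinearMap.coe_mk, AddHom.coe_mk, Matrix.trace, Fin.sum_univ_succ]
    simp [mw, mv, dotProduct, mulVec, Fin.sum_univ_two]
    ring_nf
    simp [Complex.I_sq]
    ring

/-- The Hermitian matrix with diagonal `a, b` and upper off-diagonal entry `c + i d`. -/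
noncomputable def hm (a b c d : ℝ) : Matrix (Fin 2) (Fin 2) ℂ :=
  !![(a : ℂ), (c : ℂ) + d * Complex.I; (c : ℂ) - d * Complex.I, (b : ℂ)]

lemma eq_hm {Z : Matrix (Fin 2) (Fin 2) ℂ} (hZ : Z.IsHermitian) :
    Z = hm (Z 0 0).re (Z 1 1).re (Z 0 1).re (Z 0 1).im := by
  have h00 := hZ.apply 0 0
  have h11 := hZ.apply 1 1
  have h10 := hZ.apply 1 0
  have i00 : (Z 0 0).im = 0 := by
    have := congrArg Complex.im h00
    simp at this; linarith
  have i11 : (Z 1 1).im = 0 := by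
    have := congrArg Complex.im h11
    simp at this; linarith
  ext i j
  fin_cases i <;> fin_cases j
  · apply Complex.ext <;> simp [hm, i00]
  · apply Complex.ext <;> simp [hm]
  · change Z 1 0 = _
    rw [← h10]
    apply Complex.ext <;> simp [hm]
  · apply Complex.ext <;> simp [hm, i11]

/-- The output distribution of `N`. -/
noncomputable def pN (a b c d : ℝ) : Fin 6 → ℝ :=
  ![a/3, b/3, (a+b+2*c)/6, (a+b-2*c)/6, (a+b-2*d)/6, (a+b+2*d)/6]

lemma NN_hm (a b c d : ℝ) :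
    NN (hm a b c d) = diagonal (fun o => ((pN a b c d o : ℝ) : ℂ)) := by
  simp only [NN, LinearMap.coe_mk, AddHom.coe_mk]
  congr 1
  funext o
  fin_cases o <;> simp [mw, mv, pN, hm, dotProduct, mulVec, Fin.sum_univ_two] <;> ring_nf <;>
    simp [Complex.I_sq] <;> ring

lemma MM_hm (a b c d : ℝ) : MM (hm a b c d) = hm a b (c/2) (d/2) := by
  ext i j
  fin_cases i <;> fin_cases j <;> simp [MM, hm, CC, hadamard_apply] <;> ring

lemma hm_isHermitian (a b c d : ℝ) : (hm a b c d).IsHermitian := by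
  ext i j
  fin_cases i <;> fin_cases j <;> simp [hm, sub_eq_add_neg]

lemma hm_psd {a b c d : ℝ} (ha : 0 ≤ a) (hb : 0 ≤ b) (h : c ^ 2 + d ^ 2 ≤ a * b) :
    (hm a b c d).PosSemidef := by
  rcases eq_or_lt_of_le ha with h0 | h0
  · subst h0
    have hc : c = 0 := by nlinarith [sq_nonneg c, sq_nonneg d]
    have hd : d = 0 := by nlinarith [sq_nonneg c, sq_nonneg d]
    subst hc hd
    have e : hm 0 b 0 0 = (b : ℂ) • vecMulVec ![(0 : ℂ), 1] (star ![(0 : ℂ), 1]) := by
      ext i j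
      fin_cases i <;> fin_cases j <;> simp [hm]
    rw [e]
    exact smul_psd (posSemidef_vecMulVec_self_star _) b hb
  · have e : hm a b c d = ((1 / a : ℝ) : ℂ) • vecMulVec ![(a : ℂ), (c : ℂ) - d * Complex.I]
        (star ![(a : ℂ), (c : ℂ) - d * Complex.I]) +
        ((b - (c ^ 2 + d ^ 2) / a : ℝ) : ℂ) • vecMulVec ![(0 : ℂ), 1] (star ![(0 : ℂ), 1]) := by
      have ha' : (a : ℂ) ≠ 0 := by exact_mod_cast h0.ne'
      ext i j
      fin_cases i <;> fin_cases j <;> simp [hm] <;> field_simp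
      ring_nf
      simp [Complex.I_sq]
    rw [e]
    refine (smul_psd (posSemidef_vecMulVec_self_star _) _ (by positivity)).add
      (smul_psd (posSemidef_vecMulVec_self_star _) _ ?_)
    rw [sub_nonneg, div_le_iff₀ h0]
    linarith

lemma hm_psd_iff {a b c d : ℝ} (h : (hm a b c d).PosSemidef) :
    0 ≤ a ∧ 0 ≤ b ∧ c ^ 2 + d ^ 2 ≤ a * b := by
  have h1 := h.diag_nonneg (i := 0)
  have h2 := h.diag_nonneg (i := 1)
  have h3 := h.det_nonneg
  have e : (hm a b c d).det = ((a * b - (c ^ 2 + d ^ 2) : ℝ) : ℂ) := by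
    rw [det_fin_two]
    simp [hm]
    ring_nf
    simp [Complex.I_sq]
  rw [e] at h3
  have h3' : 0 ≤ a * b - (c ^ 2 + d ^ 2) := by exact_mod_cast h3
  have h1' : (0 : ℂ) ≤ (a : ℂ) := by simpa [hm] using h1
  have h2' : (0 : ℂ) ≤ (b : ℂ) := by simpa [hm] using h2
  exact ⟨by exact_mod_cast h1', by exact_mod_cast h2', by linarith⟩

lemma inv_pair {u : ℝ} (h1 : -1 ≤ u) (h2 : u ≤ 1) : 3 ≤ 6 / (1 + u) + 6 / (1 - u) := by
  have n1 : 0 ≤ 6 / (1 + u) := div_nonneg (by norm_num) (by linarith)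
  have n2 : 0 ≤ 6 / (1 - u) := div_nonneg (by norm_num) (by linarith)
  rcases eq_or_lt_of_le h1 with h | h
  · rw [← h] at n1 ⊢
    norm_num
  · have h3 : 0 < 1 + u := by linarith
    have h4 : 3 ≤ 6 / (1 + u) := by
      rw [le_div_iff₀ h3]
      linarith
    linarith

/-- Lower bound for the classical Fisher form. -/
lemma N_lower {a b c d : ℝ} (hab : a + b = 1) (h : (hm a b c d).PosSemidef) (x u v : ℝ) :
    (1/3) * (x ^ 2 * (a⁻¹ + b⁻¹)) + (1/3) * (u ^ 2 + v ^ 2) ≤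
      rnorm k0 (NN (hm a b c d)) (NN (hm x (-x) u v)) := by
  obtain ⟨ha, hb, hdet⟩ := hm_psd_iff h
  have hc : (2 * c) ^ 2 ≤ 1 := by nlinarith [sq_nonneg (a - b), sq_nonneg d]
  have hd : (2 * d) ^ 2 ≤ 1 := by nlinarith [sq_nonneg (a - b), sq_nonneg c]
  have hc1 : -1 ≤ 2 * c := by nlinarith
  have hc2 : 2 * c ≤ 1 := by nlinarith
  have hd1 : -1 ≤ 2 * d := by nlinarith
  have hd2 : 2 * d ≤ 1 := by nlinarith
  rw [NN_hm, NN_hm, rnorm_diag]
  · rw [Fin.sum_univ_succ, Fin.sum_univ_succ, Fin.sum_univ_succ, Fin.sum_univ_succ,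
      Fin.sum_univ_succ, Fin.sum_univ_one]
    have e0 : 3 / a = 3 * a⁻¹ := div_eq_mul_inv _ _
    have e1 : 3 / b = 3 * b⁻¹ := div_eq_mul_inv _ _
    have p1 := inv_pair hc1 hc2
    have p2 := inv_pair hd1 hd2
    simp only [pN, Matrix.cons_val]
    simp
    rw [e0, e1, hab]
    have q1 := mul_le_mul_of_nonneg_left p1 (by positivity : 0 ≤ (2 * u / 6) ^ 2)
    have q2 := mul_le_mul_of_nonneg_left p2 (by positivity : 0 ≤ (2 * v / 6) ^ 2)
    nlinarith [q1, q2]
  · intro o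
    fin_cases o <;> simp [pN] <;> linarith

lemma cs_entry (y z : ℂ) {k : ℝ} (hk : 0 < k) :
    (star y * z).re ≤ 2 * ‖y‖ ^ 2 / k + k * ‖z‖ ^ 2 / 8 := by
  have h1 : (star y * z).re ≤ ‖y‖ * ‖z‖ := by
    refine (Complex.re_le_norm _).trans ?_
    rw [norm_mul, norm_star]
  refine h1.trans ?_
  rw [div_add' _ _ _ hk.ne', le_div_iff₀ hk]
  nlinarith [sq_nonneg (4 * ‖y‖ - k * ‖z‖)]

lemma rtr_conj_delta (a b : ℝ) (Z : Matrix (Fin 2) (Fin 2) ℂ) :
    rtr (Zᴴ * hm a b 0 0 * Z) + rtr (hm a b 0 0 * (Zᴴ * Z)) =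
      (2 * a) * ‖Z 0 0‖ ^ 2 + (a + b) * ‖Z 0 1‖ ^ 2 + (a + b) * ‖Z 1 0‖ ^ 2 +
        (2 * b) * ‖Z 1 1‖ ^ 2 := by
  simp only [rtr, Matrix.trace, Fin.sum_univ_two, diag_apply, Matrix.mul_apply, hm,
    conjTranspose_apply]
  simp [← Complex.normSq_eq_norm_sq, Complex.normSq_apply]
  ring

/-- Upper bound for the Riemannian form of the dephased operators. -/
lemma M_upper {a b c d : ℝ} (hab : a + b = 1) (h : (hm a b c d).PosSemidef) (x u v : ℝ) :
    0 ≤ rnorm k0 (MM (hm a b c d)) (MM (hm x (-x) u v)) ∧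
    rnorm k0 (MM (hm a b c d)) (MM (hm x (-x) u v)) ≤
      2 * (x ^ 2 * (a⁻¹ + b⁻¹)) + 2 * (u ^ 2 + v ^ 2) := by
  obtain ⟨ha, hb, hdet⟩ := hm_psd_iff h
  rw [MM_hm, MM_hm]
  have hσp : (hm a b (c/2) (d/2)).PosSemidef := hm_psd ha hb (by nlinarith [mul_nonneg ha hb])
  obtain ⟨Z, hZ, hr⟩ := rnorm_k0 hσp (hm x (-x) (u/2) (v/2))
  rw [hr]
  rcases eq_or_lt_of_le ha with h0 | h0
  · have hb1 : b = 1 := by linarith
    have hc : c = 0 := by nlinarith [sq_nonneg c, sq_nonneg d]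
    have hd : d = 0 := by nlinarith [sq_nonneg c, sq_nonneg d]
    subst hb1 hc hd
    rw [← h0] at hZ ⊢
    have hP : IsProj (hm 0 1 (0/2) (0/2)) := by
      refine ⟨hm_isHermitian _ _ _ _, ?_⟩
      ext i j
      fin_cases i <;> fin_cases j <;> simp [hm]
    rw [ginv_proj hP] at hZ
    have z00 := congrFun (congrFun hZ 0) 0
    have z01 := congrFun (congrFun hZ 0) 1
    have z10 := congrFun (congrFun hZ 1) 0
    have z11 := congrFun (congrFun hZ 1) 1
    simp only [Matrix.add_apply, Matrix.smul_apply, Matrix.mul_apply, Fin.sum_univ_two] at z00 z01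
    simp only [Matrix.add_apply, Matrix.smul_apply, Matrix.mul_apply, Fin.sum_univ_two] at z10 z11
    simp [hm] at z00 z01 z10 z11
    have z11' : Z 1 1 = -(x : ℂ) := by linear_combination (1/2) * z11
    rw [Fin.sum_univ_two, Fin.sum_univ_two, Fin.sum_univ_two, z00, z01, z10, z11']
    simp [hm]
    constructor <;> nlinarith [sq_nonneg x, sq_nonneg u, sq_nonneg v]
  rcases eq_or_lt_of_le hb with h1 | h1
  · have hb1 : a = 1 := by linarith
    have hc : c = 0 := by nlinarith [sq_nonneg c, sq_nonneg d]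
    have hd : d = 0 := by nlinarith [sq_nonneg c, sq_nonneg d]
    subst hb1 hc hd
    rw [← h1] at hZ ⊢
    have hP : IsProj (hm 1 0 (0/2) (0/2)) := by
      refine ⟨hm_isHermitian _ _ _ _, ?_⟩
      ext i j
      fin_cases i <;> fin_cases j <;> simp [hm]
    rw [ginv_proj hP] at hZ
    have z00 := congrFun (congrFun hZ 0) 0
    have z01 := congrFun (congrFun hZ 0) 1
    have z10 := congrFun (congrFun hZ 1) 0
    have z11 := congrFun (congrFun hZ 1) 1
    simp only [Matrix.add_apply, Matrix.smul_apply, Matrix.mul_apply, Fin.sum_univ_two] at z00 z01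
    simp only [Matrix.add_apply, Matrix.smul_apply, Matrix.mul_apply, Fin.sum_univ_two] at z10 z11
    simp [hm] at z00 z01 z10 z11
    have z00' : Z 0 0 = (x : ℂ) := by linear_combination (1/2) * z00
    rw [Fin.sum_univ_two, Fin.sum_univ_two, Fin.sum_univ_two, z00', z01, z10, z11]
    simp [hm]
    constructor <;> nlinarith [sq_nonneg x, sq_nonneg u, sq_nonneg v]
  · have hpd : (hm a b (c/2) (d/2)).PosDef := by
      rw [hσp.posDef_iff_det_ne_zero]
      have e : (hm a b (c/2) (d/2)).det = ((a * b - (c ^ 2 + d ^ 2)/4 : ℝ) : ℂ) := by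
        rw [det_fin_two]
        simp [hm]
        ring_nf
        simp [Complex.I_sq]
        ring
      rw [e]
      have : a * b - (c ^ 2 + d ^ 2)/4 ≠ 0 := by
        have := mul_pos h0 h1
        nlinarith
      exact_mod_cast this
    have hY : Z * hm a b (c/2) (d/2) + hm a b (c/2) (d/2) * Z =
        (2 : ℂ) • hm x (-x) (u/2) (v/2) := by
      have h2 := congrArg (fun K => K * hm a b (c/2) (d/2)) hZ
      simp only [add_mul, smul_mul_assoc, mul_assoc, ginv_mul_of_posDef hpd, mul_one] at h2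
      exact h2
    set σ := hm a b (c/2) (d/2) with hσdef
    set Y := hm x (-x) (u/2) (v/2) with hYdef
    have hrt : (∑ i, ∑ j, star (Y i j) * Z i j).re = rtr (Yᴴ * Z) := by
      rw [rtr, Matrix.trace, Finset.sum_comm]
      simp only [diag_apply, Matrix.mul_apply, conjTranspose_apply]
    have hrt2 : 2 * rtr (Yᴴ * Z) = rtr (Zᴴ * σ * Z) + rtr (σ * (Zᴴ * Z)) := by
      have h3 : ((2 : ℝ) : ℂ) • (Yᴴ * Z) = (Z * σ + σ * Z)ᴴ * Z := by
        rw [hY, conjTranspose_smul, smul_mul_assoc]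
        norm_num
      rw [← rtr_smul, h3, conjTranspose_add, conjTranspose_mul, conjTranspose_mul, hσp.1.eq,
        add_mul, rtr_add, mul_assoc]
      ring
    have hsplit : σ = ((1/2 : ℝ) : ℂ) • hm a b c d + ((1/2 : ℝ) : ℂ) • hm a b 0 0 := by
      rw [hσdef]
      ext i j
      fin_cases i <;> fin_cases j <;> simp [hm] <;> ring
    have g1 : rtr (Zᴴ * σ * Z) = 1/2 * rtr (Zᴴ * hm a b c d * Z) +
        1/2 * rtr (Zᴴ * hm a b 0 0 * Z) := by
      rw [hsplit]
      simp only [mul_add, add_mul, mul_smul_comm, smul_mul_assoc, rtr_add, rtr_smul]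
    have g2 : rtr (σ * (Zᴴ * Z)) = 1/2 * rtr (hm a b c d * (Zᴴ * Z)) +
        1/2 * rtr (hm a b 0 0 * (Zᴴ * Z)) := by
      rw [hsplit]
      simp only [add_mul, smul_mul_assoc, rtr_add, rtr_smul]
    have g3 : 0 ≤ rtr (Zᴴ * hm a b c d * Z) := rtr_conj_nonneg h Z
    have g4 : 0 ≤ rtr (hm a b c d * (Zᴴ * Z)) :=
      rtr_mul_nonneg h (posSemidef_conjTranspose_mul_self Z)
    have g5 := rtr_conj_delta a b Z
    have g6 : 0 ≤ (2 * a) * ‖Z 0 0‖ ^ 2 + (a + b) * ‖Z 0 1‖ ^ 2 + (a + b) * ‖Z 1 0‖ ^ 2 +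
        (2 * b) * ‖Z 1 1‖ ^ 2 := by positivity
    have g7 : rtr (Yᴴ * Z) ≤ (2 * ‖Y 0 0‖ ^ 2 / (2 * a) + (2 * a) * ‖Z 0 0‖ ^ 2 / 8) +
        (2 * ‖Y 0 1‖ ^ 2 / (a + b) + (a + b) * ‖Z 0 1‖ ^ 2 / 8) +
        ((2 * ‖Y 1 0‖ ^ 2 / (a + b) + (a + b) * ‖Z 1 0‖ ^ 2 / 8) +
        (2 * ‖Y 1 1‖ ^ 2 / (2 * b) + (2 * b) * ‖Z 1 1‖ ^ 2 / 8)) := by
      rw [← hrt, Fin.sum_univ_two, Fin.sum_univ_two, Fin.sum_univ_two, Complex.add_re,
        Complex.add_re, Complex.add_re]
      have c1 := cs_entry (Y 0 0) (Z 0 0) (k := 2 * a) (by linarith)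
      have c2 := cs_entry (Y 0 1) (Z 0 1) (k := a + b) (by linarith)
      have c3 := cs_entry (Y 1 0) (Z 1 0) (k := a + b) (by linarith)
      have c4 := cs_entry (Y 1 1) (Z 1 1) (k := 2 * b) (by linarith)
      linarith
    have n00 : ‖Y 0 0‖ ^ 2 = x ^ 2 := by
      rw [← Complex.normSq_eq_norm_sq, hYdef]
      simp [hm, Complex.normSq_apply]; ring
    have n11 : ‖Y 1 1‖ ^ 2 = x ^ 2 := by
      rw [← Complex.normSq_eq_norm_sq, hYdef]
      simp [hm, Complex.normSq_apply]; ring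
    have n01 : ‖Y 0 1‖ ^ 2 = (u ^ 2 + v ^ 2) / 4 := by
      rw [← Complex.normSq_eq_norm_sq, hYdef]
      simp [hm, Complex.normSq_apply]; ring
    have n10 : ‖Y 1 0‖ ^ 2 = (u ^ 2 + v ^ 2) / 4 := by
      rw [← Complex.normSq_eq_norm_sq, hYdef]
      simp [hm, Complex.normSq_apply]; ring
    rw [n00, n01, n10, n11] at g7
    have e1 : 2 * x ^ 2 / (2 * a) = x ^ 2 * a⁻¹ := by
      field_simp
    have e2 : 2 * x ^ 2 / (2 * b) = x ^ 2 * b⁻¹ := by
      field_simp
    rw [e1, e2, hab] at g7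
    rw [hab] at g5 g6
    rw [hrt]
    constructor
    · linarith
    · linarith

/-! ### Main result -/

lemma riem_pos : 0 < etaRiem k0 NN MM := by
  have h : ((1/6 : ℝ) : EReal) ≤ etaRiem k0 NN MM := by
    apply le_sInf
    rintro y ⟨ρ, X, hρ, hX, hXt, hne, rfl⟩
    rw [EReal.coe_le_coe_iff]
    have e1 := eq_hm hρ.psd.1
    have e2 := eq_hm hX
    have hab : (ρ 0 0).re + (ρ 1 1).re = 1 := by
      have := congrArg Complex.re hρ.tr
      simpa [Matrix.trace, Fin.sum_univ_two] using this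
    have hX1 : (X 1 1).re = -(X 0 0).re := by
      have := congrArg Complex.re hXt
      simp [Matrix.trace, Fin.sum_univ_two] at this
      linarith
    rw [hX1] at e2
    have hp := hρ.psd
    rw [e1] at hp
    obtain ⟨m1, m2⟩ := M_upper hab hp (X 0 0).re (X 0 1).re (X 0 1).im
    have n1 := N_lower hab hp (X 0 0).re (X 0 1).re (X 0 1).im
    rw [← e1, ← e2] at m1 m2 n1
    have m3 : 0 < rnorm k0 (MM ρ) (MM X) := lt_of_le_of_ne m1 (Ne.symm hne)
    rw [le_div_iff₀ m3]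
    linarith
  refine lt_of_lt_of_le ?_ h
  exact_mod_cast (by norm_num : (0 : ℝ) < 1/6)

lemma Dstd_nonneg {n : Type} [Fintype n] [DecidableEq n] {ρ γ : Matrix n n ℂ}
    (hρ : ρ.IsHermitian) (hγ : γ.IsHermitian) : 0 ≤ Dstd f0 ρ γ := by
  rw [Dstd_f0 hρ hγ]
  exact Finset.sum_nonneg (fun i _ => Finset.sum_nonneg (fun j _ => by positivity))

lemma psd_of_channel {a b : ℕ} {N : Matrix (Fin a) (Fin a) ℂ →ₗ[ℂ] Matrix (Fin b) (Fin b) ℂ}
    (hN : IsChannel N) {Z : Matrix (Fin a) (Fin a) ℂ} (hZ : Z.PosSemidef) :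
    (N Z).PosSemidef := by
  have h1 := hN.cp 1 (Z.submatrix Prod.snd Prod.snd) (hZ.submatrix _)
  have h2 := h1.submatrix (fun x : Fin b => ((0 : Fin 1), x))
  refine cast (congrArg PosSemidef ?_) h2
  ext i j
  simp only [ampl, submatrix_apply, Matrix.of_apply]
  rfl

lemma hm_density {a b c d : ℝ} (ha : 0 ≤ a) (hb : 0 ≤ b) (hab : a + b = 1)
    (h : c ^ 2 + d ^ 2 ≤ a * b) : IsDensity (hm a b c d) := by
  refine ⟨hm_psd ha hb h, ?_⟩
  simp [hm, Matrix.trace, Fin.sum_univ_two]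
  exact_mod_cast hab

lemma hm_range {a b c d : ℝ} (h : a * b - (c ^ 2 + d ^ 2) ≠ 0) :
    LinearMap.range (hm a b c d).mulVecLin = ⊤ := by
  rw [LinearMap.range_eq_top]
  have h1 : IsUnit (hm a b c d) := by
    rw [Matrix.isUnit_iff_isUnit_det, isUnit_iff_ne_zero]
    have e : (hm a b c d).det = ((a * b - (c ^ 2 + d ^ 2) : ℝ) : ℂ) := by
      rw [det_fin_two]
      simp [hm]
      ring_nf
      simp [Complex.I_sq]
    rw [e]
    exact_mod_cast h
  exact Matrix.mulVec_surjective_iff_isUnit.2 h1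

lemma std_M {q t : ℝ} (h0 : 0 < q) (h1 : q < 1) :
    Dstd f0 (MM (hm (1 - q) q t 0)) (MM (hm (1 - q) q 0 0)) = t ^ 2 / (4 * (q * (1 - q))) := by
  have e : MM (hm (1 - q) q 0 0) = diagonal (fun o => ((![1 - q, q] o : ℝ) : ℂ)) := by
    rw [MM_hm]
    ext i j
    fin_cases i <;> fin_cases j <;> simp [hm]
  rw [MM_hm (1 - q) q t 0, e, Dstd_diag (hm_isHermitian _ _ _ _)]
  · have h2 : (1 - q) ≠ 0 := by linarith
    simp only [Fin.sum_univ_two]
    have a00 : (hm (1 - q) q (t/2) (0/2) - diagonal (fun o => ((![1 - q, q] o : ℝ) : ℂ))) 0 0 = 0 := by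
      simp [hm]
    have a11 : (hm (1 - q) q (t/2) (0/2) - diagonal (fun o => ((![1 - q, q] o : ℝ) : ℂ))) 1 1 = 0 := by
      simp [hm]
    have a01 : (hm (1 - q) q (t/2) (0/2) - diagonal (fun o => ((![1 - q, q] o : ℝ) : ℂ))) 0 1 =
        ((t / 2 : ℝ) : ℂ) := by
      simp [hm]
    have a10 : (hm (1 - q) q (t/2) (0/2) - diagonal (fun o => ((![1 - q, q] o : ℝ) : ℂ))) 1 0 =
        ((t / 2 : ℝ) : ℂ) := by
      simp [hm]
    rw [a00, a01, a10, a11, Complex.norm_real, Real.norm_eq_abs, sq_abs]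
    simp
    field_simp
    ring
  · intro o
    fin_cases o
    · change 0 < 1 - q; linarith
    · change 0 < q; linarith

lemma std_N {q t : ℝ} (h0 : 0 < q) (h1 : q < 1) :
    Dstd f0 (NN (hm (1 - q) q t 0)) (NN (hm (1 - q) q 0 0)) = 4 * t ^ 2 / 3 := by
  have hh : (diagonal (fun o => ((pN (1 - q) q t 0 o : ℝ) : ℂ))).IsHermitian := by
    rw [Matrix.IsHermitian, diagonal_conjTranspose]
    congr 1
    funext o
    simp
  rw [NN_hm, NN_hm, Dstd_diag hh]
  · have h2 : ∀ i, ∑ j, ‖(diagonal (fun o => ((pN (1 - q) q t 0 o : ℝ) : ℂ)) -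
        diagonal (fun o => ((pN (1 - q) q 0 0 o : ℝ) : ℂ))) i j‖ ^ 2 / pN (1 - q) q 0 0 j =
        (pN (1 - q) q t 0 i - pN (1 - q) q 0 0 i) ^ 2 / pN (1 - q) q 0 0 i := by
      intro i
      rw [Finset.sum_eq_single i]
      · rw [Matrix.sub_apply, diagonal_apply_eq, diagonal_apply_eq, ← Complex.ofReal_sub,
          Complex.norm_real, Real.norm_eq_abs, sq_abs]
      · intro j _ hj
        rw [Matrix.sub_apply, diagonal_apply_ne _ (Ne.symm hj), diagonal_apply_ne _ (Ne.symm hj)]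
        simp
      · intro h; exact absurd (Finset.mem_univ _) h
    simp only [h2]
    rw [Fin.sum_univ_succ, Fin.sum_univ_succ, Fin.sum_univ_succ, Fin.sum_univ_succ,
      Fin.sum_univ_succ, Fin.sum_univ_one]
    simp [pN]
    ring
  · intro o
    fin_cases o <;> simp [pN] <;> linarith

lemma std_zero : etaStd f0 NN MM = 0 := by
  apply le_antisymm
  · by_contra hcon
    rw [not_le] at hcon
    obtain ⟨c, hc0, hc1⟩ := EReal.lt_iff_exists_real_btwn.1 hcon
    have hc : 0 < c := by exact_mod_cast hc0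
    set q : ℝ := min (1/2) (c / 16) with hq
    have hq0 : 0 < q := lt_min (by norm_num) (by positivity)
    have hq1 : q ≤ 1/2 := min_le_left _ _
    have hq2 : q ≤ c / 16 := min_le_right _ _
    set t : ℝ := q * (1 - q) with ht
    have ht0 : 0 < t := mul_pos hq0 (by linarith)
    have ht1 : t < 1 := by nlinarith
    have ht2 : t ^ 2 < (1 - q) * q := by
      have : (1 - q) * q = t := by rw [ht]; ring
      rw [this]; nlinarith
    have hmem : etaStd f0 NN MM ≤ ((Dstd f0 (NN (hm (1 - q) q t 0)) (NN (hm (1 - q) q 0 0)) /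
        Dstd f0 (MM (hm (1 - q) q t 0)) (MM (hm (1 - q) q 0 0)) : ℝ) : EReal) := by
      apply sInf_le
      refine ⟨hm (1 - q) q t 0, hm (1 - q) q 0 0,
        hm_density (by linarith) hq0.le (by ring) (by linarith),
        hm_density (by linarith) hq0.le (by ring) (by nlinarith), ?_, ?_, ?_, rfl⟩
      · intro h
        have := congrFun (congrFun h 0) 1
        simp [hm] at this
        exact ht0.ne' this
      · rw [hm_range (by linarith), hm_range (by nlinarith)]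
      · rw [std_M hq0 (by linarith)]
        have : 0 < t ^ 2 / (4 * (q * (1 - q))) := by
          apply div_pos (by positivity)
          apply mul_pos (by norm_num) ht0
        exact this.ne'
    rw [std_M hq0 (by linarith), std_N hq0 (by linarith)] at hmem
    have hval : 4 * t ^ 2 / 3 / (t ^ 2 / (4 * (q * (1 - q)))) = 16 / 3 * t := by
      rw [← ht]
      field_simp
      norm_num
    rw [hval] at hmem
    have hlt : 16 / 3 * t < c := by nlinarith
    have h3 := lt_of_lt_of_le hc1 hmem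
    rw [EReal.coe_lt_coe_iff] at h3
    linarith
  · apply le_sInf
    rintro y ⟨ρ, γ, hρ, hγ, -, -, -, rfl⟩
    have h1 := Dstd_nonneg (psd_of_channel NN_isChannel hρ.psd).1
      (psd_of_channel NN_isChannel hγ.psd).1
    have h2 := Dstd_nonneg (psd_of_channel MM_isChannel hρ.psd).1
      (psd_of_channel MM_isChannel hγ.psd).1
    exact_mod_cast div_nonneg h1 h2

/-- There are channels `N, M` with a common input space, `f ∈ 𝓕` and a bounded `κ ∈ 𝓚` (with its
value at `0` equal to its limit there) such that `η̌_f^std(N,M) = 0` and `η̌_κ^Riem(N,M) > 0`. -/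
theorem result : ∃ (a b b' : ℕ)
    (N : Matrix (Fin a) (Fin a) ℂ →ₗ[ℂ] Matrix (Fin b) (Fin b) ℂ)
    (M : Matrix (Fin a) (Fin a) ℂ →ₗ[ℂ] Matrix (Fin b') (Fin b') ℂ) (f κ : ℝ → ℝ),
    IsChannel N ∧ IsChannel M ∧ InF f ∧ InK κ ∧
      Filter.Tendsto κ (nhdsWithin 0 (Set.Ioi 0)) (nhds (κ 0)) ∧
      etaStd f N M = 0 ∧ 0 < etaRiem κ N M := by
  refine ⟨2, 6, 2, NN, MM, f0, k0, NN_isChannel, MM_isChannel, f0_inF, k0_inK, ?_, std_zero,
    riem_pos⟩
  have h : ContinuousAt k0 0 := by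
    unfold k0
    apply ContinuousAt.div continuousAt_const
    · exact continuousAt_const.add continuousAt_id
    · norm_num
  exact h.tendsto.mono_left nhdsWithin_le_nhds

end Pool.Agent.Results.MP_7112d2_mp.StdZeroRiemPositive
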